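import Mathlib

namespace Pool.Agent.Results.MP_9bafdc_mp.NonzeroTrace

open MvPolynomial

/-- polynomial functions in the entries of the `m × m` matrices `x_1,…,x_N`;
`X (α, i, j)` is the entry of `x_α` in row `i`, column `j` -/
abbrev Pol (N m : ℕ) := MvPolynomial (Fin N × Fin m × Fin m) ℂ

/-- the matrix `x_α` -/
noncomputable def gen {N m : ℕ} (α : Fin N) : Matrix (Fin m) (Fin m) (Pol N m) :=
  Matrix.of fun i j => X (α, i, j)

/-- evaluation of a matrix polynomial at `x_1,…,x_N` -/
noncomputable def evalM {N : ℕ} (m : ℕ) (P : FreeAlgebra ℂ (Fin N)) :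
    Matrix (Fin m) (Fin m) (Pol N m) := FreeAlgebra.lift ℂ (gen (m := m)) P

/-- the matrix `g x_α g⁻¹` -/
noncomputable def conjGen {N m : ℕ} (g : (Matrix (Fin m) (Fin m) ℂ)ˣ) (α : Fin N) :
    Matrix (Fin m) (Fin m) (Pol N m) := g.val.map C * gen α * g⁻¹.val.map C

/-- the substitution `x_α ↦ g x_α g⁻¹` on polynomial functions -/
noncomputable def conj {N m : ℕ} (g : (Matrix (Fin m) (Fin m) ℂ)ˣ) : Pol N m →ₐ[ℂ] Pol N m :=
  aeval fun a => conjGen g a.1 a.2.1 a.2.2

/-- a Poisson bracket on polynomial functions -/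
structure IsPoisson {N m : ℕ} (B : Pol N m → Pol N m → Pol N m) : Prop where
  add_left : ∀ f g h, B (f + g) h = B f h + B g h
  smul_left : ∀ (c : ℂ) f g, B (c • f) g = c • B f g
  antisymm : ∀ f g, B f g = - B g f
  leibniz : ∀ f g h, B f (g * h) = B f g * h + g * B f h
  jacobi : ∀ f g h, B f (B g h) + B g (B h f) + B h (B f g) = 0

/-- a trace Poisson bracket -/
structure IsTraceBracket {N m : ℕ} (B : Pol N m → Pol N m → Pol N m) : Prop where
  poisson : IsPoisson B
  invariant : ∀ (g : (Matrix (Fin m) (Fin m) ℂ)ˣ) f h, conj g (B f h) = B (conj g f) (conj g h)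
  trace : ∀ P₁ P₂ : FreeAlgebra ℂ (Fin N), ∃ P₃ : FreeAlgebra ℂ (Fin N),
    B (evalM m P₁).trace (evalM m P₂).trace = (evalM m P₃).trace

/-- homogeneous of degree `k` -/
def IsHomogeneousBracket {N m : ℕ} (k : ℕ) (B : Pol N m → Pol N m → Pol N m) : Prop :=
  ∀ a b, IsHomogeneous (B (X a) (X b)) k

/-- the matrix given by a word -/
noncomputable def word {N m : ℕ} (w : List (Fin N)) : Matrix (Fin m) (Fin m) (Pol N m) :=
  (w.map gen).prod

/-- form (*): there are constants `c` with
`{x^j_{i,α}, x^{j'}_{i',β}} = ∑ c^{u,v}_{αβ} (u)^{j'}_i (v)^j_{i'}` over all pairs of words `(u, v)`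
of total length `k`; a pair is given by a word `w` of length `k` and a cut position `a ≤ k`. -/
def FormStar {N m : ℕ} (k : ℕ) (B : Pol N m → Pol N m → Pol N m) : Prop :=
  ∃ c : List (Fin N) → List (Fin N) → Fin N → Fin N → ℂ, ∀ α β i j i' j',
    B (X (α, i, j)) (X (β, i', j')) = ∑ w : Fin k → Fin N, ∑ a ∈ Finset.range (k + 1),
      c ((List.ofFn w).take a) ((List.ofFn w).drop a) α β •
        (word ((List.ofFn w).take a) i j' * word ((List.ofFn w).drop a) i' j)

section Abstract

variable {σ : Type*}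

/-- bilinear, antisymmetric and Leibniz -/
structure BiDer (B : MvPolynomial σ ℂ → MvPolynomial σ ℂ → MvPolynomial σ ℂ) : Prop where
  add_left : ∀ f g h, B (f + g) h = B f h + B g h
  smul_left : ∀ (c : ℂ) f g, B (c • f) g = c • B f g
  antisymm : ∀ f g, B f g = - B g f
  leibniz : ∀ f g h, B f (g * h) = B f g * h + g * B f h

variable {B : MvPolynomial σ ℂ → MvPolynomial σ ℂ → MvPolynomial σ ℂ}

lemma BiDer.add_right (hB : BiDer B) (f g h) : B f (g + h) = B f g + B f h := by
  rw [hB.antisymm, hB.add_left, hB.antisymm g, hB.antisymm h]; ring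

lemma BiDer.smul_right (hB : BiDer B) (c : ℂ) (f g) : B f (c • g) = c • B f g := by
  rw [hB.antisymm, hB.smul_left, hB.antisymm g]; simp

lemma BiDer.leibniz_left (hB : BiDer B) (f g h) : B (f * g) h = B f h * g + f * B g h := by
  rw [hB.antisymm, hB.leibniz, hB.antisymm h f, hB.antisymm h g]; ring

lemma BiDer.zero_right (hB : BiDer B) (f) : B f 0 = 0 := by
  have := hB.smul_right 0 f 0
  simpa using this

lemma BiDer.one_right (hB : BiDer B) (f) : B f 1 = 0 := by
  have := hB.leibniz f 1 1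
  simp only [mul_one, one_mul] at this
  linear_combination -this

lemma BiDer.C_right (hB : BiDer B) (c : ℂ) (f) : B f (C c) = 0 := by
  have h : (C c : MvPolynomial σ ℂ) = c • 1 := by rw [← C_mul', mul_one]
  rw [h, hB.smul_right, hB.one_right, smul_zero]

lemma BiDer.sum_right {ι : Type*} (hB : BiDer B) (s : Finset ι) (f) (F : ι → MvPolynomial σ ℂ) :
    B f (∑ x ∈ s, F x) = ∑ x ∈ s, B f (F x) := by
  classical
  induction s using Finset.induction_on with
  | empty => simpa using hB.zero_right f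
  | insert a s ha ih => rw [Finset.sum_insert ha, Finset.sum_insert ha, hB.add_right, ih]

lemma BiDer.sum_left {ι : Type*} (hB : BiDer B) (s : Finset ι) (f) (F : ι → MvPolynomial σ ℂ) :
    B (∑ x ∈ s, F x) f = ∑ x ∈ s, B (F x) f := by
  rw [hB.antisymm, hB.sum_right, ← Finset.sum_neg_distrib]
  exact Finset.sum_congr rfl fun x _ => (hB.antisymm _ _).symm

/-- the bracket with a fixed first argument as a derivation -/
lemma BiDer.eq_zero_of_X (hB : BiDer B) (f) (h : ∀ a, B f (X a) = 0) (g) : B f g = 0 := by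
  induction g using MvPolynomial.induction_on with
  | C a => exact hB.C_right a f
  | add p q hp hq => rw [hB.add_right, hp, hq, add_zero]
  | mul_X p a hp => rw [hB.leibniz, hp, h a]; ring

lemma biDer_zero (hB : BiDer B) (h : ∀ a b, B (X a) (X b) = 0) (f g) : B f g = 0 := by
  apply hB.eq_zero_of_X
  intro a
  rw [hB.antisymm, hB.eq_zero_of_X (X a) (h a) f, neg_zero]

lemma jacobi_of_X (hB : BiDer B)
    (h : ∀ a b c, B (X a) (B (X b) (X c)) + B (X b) (B (X c) (X a)) + B (X c) (B (X a) (X b)) = 0)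
    (f g k) : B f (B g k) + B g (B k f) + B k (B f g) = 0 := by
  have key : ∀ f g, (∀ a, B f (B g (X a)) + B g (B (X a) f) + B (X a) (B f g) = 0) →
      ∀ k, B f (B g k) + B g (B k f) + B k (B f g) = 0 := by
    intro f g hX k
    induction k using MvPolynomial.induction_on with
    | C a =>
      rw [hB.C_right, hB.zero_right, hB.antisymm (C a) f, hB.C_right, neg_zero, hB.zero_right,
        hB.antisymm, hB.C_right]
      ring
    | add p q hp hq =>
      rw [hB.add_right, hB.add_right, hB.add_left, hB.add_right, hB.add_left]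
      linear_combination hp + hq
    | mul_X p a hp =>
      have h1 := hX a
      rw [hB.leibniz g p (X a), hB.add_right, hB.leibniz f, hB.leibniz f,
        hB.leibniz_left p (X a) f, hB.add_right, hB.leibniz g, hB.leibniz g,
        hB.leibniz_left p (X a) (B f g)]
      rw [hB.antisymm p f, hB.antisymm (X a) f] at *
      linear_combination X a * hp + p * h1
  have cyc : ∀ f g k, B f (B g k) + B g (B k f) + B k (B f g)
      = B g (B k f) + B k (B f g) + B f (B g k) := fun f g k => by ring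
  have h1 : ∀ a b k, B (X a) (B (X b) k) + B (X b) (B k (X a)) + B k (B (X a) (X b)) = 0 :=
    fun a b => key (X a) (X b) (h a b)
  have h2 : ∀ a g k, B (X a) (B g k) + B g (B k (X a)) + B k (B (X a) g) = 0 := by
    intro a g k
    have := key k (X a) (fun b => by
      rw [cyc]; exact h1 a b k) g
    rw [cyc] at this
    exact this
  have h3 := key g k (fun a => by
      have := h2 a g k
      rw [cyc] at this
      exact this) f
  rw [cyc]; exact h3


/-- the failure of a derivation to preserve a bracket is again a biderivation -/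
lemma BiDer.defect (hB : BiDer B) (D : Derivation ℂ (MvPolynomial σ ℂ) (MvPolynomial σ ℂ)) :
    BiDer (fun f g => D (B f g) - B (D f) g - B f (D g)) := by
  refine ⟨?_, ?_, ?_, ?_⟩
  · intro f g h
    simp only [hB.add_left, map_add]; ring
  · intro c f g
    simp only [hB.smul_left, Derivation.map_smul, smul_sub]
  · intro f g
    rw [hB.antisymm f g, hB.antisymm (D f) g, hB.antisymm f (D g), map_neg]; ring
  · intro f g h
    rw [hB.leibniz, hB.leibniz, D.leibniz g h, hB.add_right, map_add, D.leibniz, D.leibniz]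
    simp only [smul_eq_mul]
    rw [hB.leibniz, hB.leibniz]
    ring

/-- adding a compatible decomposable bivector to a Poisson bracket -/
lemma jacobi_add (hB : BiDer B)
    (hJ : ∀ f g k, B f (B g k) + B g (B k f) + B k (B f g) = 0)
    (V A : Derivation ℂ (MvPolynomial σ ℂ) (MvPolynomial σ ℂ)) (c : ℂ)
    (hV : ∀ f g, V (B f g) = B (V f) g + B f (V g))
    (hA : ∀ f g, A (B f g) = B (A f) g + B f (A g))
    (hVA : ∀ f, V (A f) = A (V f) + c • A f)
    {B' : MvPolynomial σ ℂ → MvPolynomial σ ℂ → MvPolynomial σ ℂ}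
    (hB' : ∀ f g, B' f g = B f g + (V f * A g - A f * V g)) (f g k) :
    B' f (B' g k) + B' g (B' k f) + B' k (B' f g) = 0 := by
  have sub_right : ∀ f g h, B f (g - h) = B f g - B f h := by
    intro f g h
    rw [sub_eq_add_neg, hB.add_right, ← neg_one_smul ℂ h, hB.smul_right]
    simp [sub_eq_add_neg]
  simp only [hB', map_add, map_sub, hB.add_right, sub_right, hB.leibniz, Derivation.leibniz, hV, hA,
    smul_eq_mul, hVA]
  simp only [smul_eq_C_mul]
  rw [hB.antisymm (V f) g, hB.antisymm (V g) k, hB.antisymm (V k) f,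
    hB.antisymm (A f) g, hB.antisymm (A g) k, hB.antisymm (A k) f]
  linear_combination hJ f g k

/-- two-sided agreement along an algebra map -/
lemma hom_of_X (hB : BiDer B) (φ : MvPolynomial σ ℂ →ₐ[ℂ] MvPolynomial σ ℂ)
    (h : ∀ a b, φ (B (X a) (X b)) = B (φ (X a)) (φ (X b))) (f g) :
    φ (B f g) = B (φ f) (φ g) := by
  have key : ∀ f, (∀ a, φ (B f (X a)) = B (φ f) (φ (X a))) → ∀ g, φ (B f g) = B (φ f) (φ g) := by
    intro f hf g
    induction g using MvPolynomial.induction_on with
    | C a =>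
      have : φ (C a) = C a := by simp
      rw [this, hB.C_right, hB.C_right, map_zero]
    | add p q hp hq => rw [hB.add_right, map_add, map_add, hB.add_right, hp, hq]
    | mul_X p a hp => rw [hB.leibniz, map_add, map_mul, map_mul, map_mul, hB.leibniz, hp, hf a]
  apply key
  intro a
  rw [hB.antisymm f, hB.antisymm (φ f), map_neg, key (X a) (h a)]

end Abstract


section Construction

variable {N m : ℕ} (k : ℕ)

/-- entrywise application of a derivation -/
noncomputable def app (D : Derivation ℂ (Pol N m) (Pol N m))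
    (A : Matrix (Fin m) (Fin m) (Pol N m)) : Matrix (Fin m) (Fin m) (Pol N m) :=
  A.map D

lemma app_mul (D : Derivation ℂ (Pol N m) (Pol N m))
    (A B : Matrix (Fin m) (Fin m) (Pol N m)) : app D (A * B) = app D A * B + A * app D B := by
  ext1 i j
  simp only [app, Matrix.map_apply, Matrix.mul_apply, Matrix.add_apply, map_sum]
  rw [← Finset.sum_add_distrib]
  apply Finset.sum_congr rfl
  intro l _
  rw [Derivation.leibniz, smul_eq_mul, smul_eq_mul]
  ring

lemma app_add (D : Derivation ℂ (Pol N m) (Pol N m))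
    (A B : Matrix (Fin m) (Fin m) (Pol N m)) : app D (A + B) = app D A + app D B := by
  ext1 i j; simp [app]

lemma app_sub (D : Derivation ℂ (Pol N m) (Pol N m))
    (A B : Matrix (Fin m) (Fin m) (Pol N m)) : app D (A - B) = app D A - app D B := by
  ext1 i j; simp [app]

lemma app_one (D : Derivation ℂ (Pol N m) (Pol N m)) :
    app D (1 : Matrix (Fin m) (Fin m) (Pol N m)) = 0 := by
  ext1 i j
  simp only [app, Matrix.map_apply, Matrix.one_apply, Matrix.zero_apply]
  split_ifs <;> simp

lemma app_smul (D : Derivation ℂ (Pol N m) (Pol N m)) (c : ℂ)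
    (A : Matrix (Fin m) (Fin m) (Pol N m)) : app D (c • A) = c • app D A := by
  ext1 i j; simp [app]

/-- constant matrices -/
noncomputable def cst (g : Matrix (Fin m) (Fin m) ℂ) : Matrix (Fin m) (Fin m) (Pol N m) :=
  g.map C

lemma app_cst (D : Derivation ℂ (Pol N m) (Pol N m)) (g : Matrix (Fin m) (Fin m) ℂ) :
    app D (cst g) = 0 := by
  ext1 i j; simp [app, cst]

lemma cst_inv_mul (g : (Matrix (Fin m) (Fin m) ℂ)ˣ) :
    (cst g⁻¹.val : Matrix (Fin m) (Fin m) (Pol N m)) * cst g.val = 1 := by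
  unfold cst
  rw [← Matrix.map_mul, Units.inv_mul, Matrix.map_one C (map_zero C) (map_one C)]

lemma cst_mul_inv (g : (Matrix (Fin m) (Fin m) ℂ)ˣ) :
    (cst g.val : Matrix (Fin m) (Fin m) (Pol N m)) * cst g⁻¹.val = 1 := by
  unfold cst
  rw [← Matrix.map_mul, Units.mul_inv, Matrix.map_one C (map_zero C) (map_one C)]

/-- gradient in the variable `x_α`, arranged as a matrix -/
noncomputable def grad (α : Fin N) (f : Pol N m) : Matrix (Fin m) (Fin m) (Pol N m) :=
  Matrix.of fun j i => pderiv (α, i, j) f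

lemma grad_add (α : Fin N) (f g : Pol N m) : grad α (f + g) = grad α f + grad α g := by
  ext1 i j; simp [grad]

lemma grad_smul (α : Fin N) (c : ℂ) (f : Pol N m) : grad α (c • f) = c • grad α f := by
  ext1 i j; simp [grad]

lemma grad_mul (α : Fin N) (f g : Pol N m) : grad α (f * g) = f • grad α g + g • grad α f := by
  ext1 i j
  simp only [grad, Matrix.of_apply, Derivation.leibniz, Matrix.add_apply, Matrix.smul_apply]

lemma grad_X (α : Fin N) (p q : Fin m) :
    grad α (X (α, p, q) : Pol N m) = Matrix.single q p 1 := by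
  ext1 j i
  simp only [grad, Matrix.of_apply, pderiv_X, Matrix.single, Pi.single_apply]
  by_cases h1 : p = i <;> by_cases h2 : q = j <;> simp [h1, h2]

lemma grad_X_ne {α β : Fin N} (h : α ≠ β) (p q : Fin m) :
    grad α (X (β, p, q) : Pol N m) = 0 := by
  ext1 j i
  simp only [grad, Matrix.of_apply, Matrix.zero_apply]
  rw [pderiv_X_of_ne]
  intro h'
  exact h (congrArg Prod.fst h').symm


variable (N m) in
/-- the base bracket: `{x_1^j_i, x_2^{j'}_{i'}} = (x_0^k)^{j'}_i δ^j_{i'}`, all others zero -/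
noncomputable def B0 (f g : Pol (N + 3) m) : Pol (N + 3) m :=
  (grad 1 f * gen 0 ^ k * grad 2 g).trace - (grad 1 g * gen 0 ^ k * grad 2 f).trace

lemma biDer_B0 : BiDer (B0 N m k) := by
  refine ⟨?_, ?_, ?_, ?_⟩
  · intro f g h
    simp only [B0, grad_add, Matrix.add_mul, Matrix.mul_add, Matrix.trace_add]; ring
  · intro c f g
    simp only [B0, grad_smul, Matrix.smul_mul, Matrix.mul_smul, Matrix.trace_smul, smul_sub]
  · intro f g
    simp only [B0]; ring
  · intro f g h
    simp only [B0, grad_mul, Matrix.add_mul, Matrix.mul_add, Matrix.trace_add, Matrix.smul_mul,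
      Matrix.mul_smul, Matrix.trace_smul, smul_eq_mul]
    ring

lemma trace_single_mul (M : Matrix (Fin m) (Fin m) (Pol N m)) (p q r s : Fin m) :
    (Matrix.single q p 1 * M * Matrix.single s r 1).trace = if q = r then M p s else 0 := by
  rw [Matrix.single_mul_mul_single]
  by_cases h : q = r
  · subst h; simp
  · simp [h]

lemma two_ne_zero' : (2 : Fin (N + 3)) ≠ 0 := by
  intro h
  have := congrArg Fin.val h
  simp [Nat.mod_eq_of_lt (show 2 < N + 3 by omega)] at this

lemma one_ne_two' : (1 : Fin (N + 3)) ≠ 2 := by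
  intro h
  have := congrArg Fin.val h
  simp [Nat.mod_eq_of_lt (show 2 < N + 3 by omega)] at this

lemma B0_one_two (p q r s : Fin m) :
    B0 N m k (X (1, p, q)) (X (2, r, s)) = if q = r then (gen 0 ^ k : Matrix _ _ (Pol (N + 3) m)) p s else 0 := by
  have h12 : (1 : Fin (N + 3)) ≠ 2 := one_ne_two'
  rw [B0, grad_X, grad_X, grad_X_ne h12, trace_single_mul]
  simp

lemma B0_zero_left (p q : Fin m) (g : Pol (N + 3) m) : B0 N m k (X (0, p, q)) g = 0 := by
  have h1 : (1 : Fin (N + 3)) ≠ 0 := by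
    intro h; have := congrArg Fin.val h; simp at this
  have h2 : (2 : Fin (N + 3)) ≠ 0 := two_ne_zero'
  rw [B0, grad_X_ne h1, grad_X_ne h2]; simp


lemma B0_X_ne {α β : Fin (N + 3)} (h : ¬ (α = 1 ∧ β = 2)) (h' : ¬ (α = 2 ∧ β = 1))
    (p q r s : Fin m) : B0 N m k (X (α, p, q)) (X (β, r, s)) = 0 := by
  rw [B0]
  have h1 : (grad 1 (X (α, p, q)) * gen 0 ^ k * grad 2 (X (β, r, s)) :
      Matrix (Fin m) (Fin m) (Pol (N + 3) m)) = 0 := by
    by_cases ha : (1 : Fin (N + 3)) = α
    · by_cases hb : (2 : Fin (N + 3)) = β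
      · exact absurd ⟨ha.symm, hb.symm⟩ h
      · rw [grad_X_ne hb]; simp
    · rw [grad_X_ne ha]; simp
  have h2 : (grad 1 (X (β, r, s)) * gen 0 ^ k * grad 2 (X (α, p, q)) :
      Matrix (Fin m) (Fin m) (Pol (N + 3) m)) = 0 := by
    by_cases hb : (1 : Fin (N + 3)) = β
    · by_cases ha : (2 : Fin (N + 3)) = α
      · exact absurd ⟨ha.symm, hb.symm⟩ h'
      · rw [grad_X_ne ha]; simp
    · rw [grad_X_ne hb]; simp
  rw [h1, h2]; simp

/-- weights of the variables -/
noncomputable def wt (k : ℕ) (α : Fin (N + 3)) : ℂ :=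
  if α = 0 then 1 else if α = 1 then (k : ℂ) else 0

/-- the Euler type field `x_0 ↦ x_0`, `x_1 ↦ k x_1`, all other variables `↦ 0` -/
noncomputable def V : Derivation ℂ (Pol (N + 3) m) (Pol (N + 3) m) :=
  mkDerivation ℂ fun a => wt k a.1 • X a

/-- the matrix `[x_0^l, x_α]` -/
noncomputable def adGen (l : ℕ) (α : Fin (N + 3)) : Matrix (Fin m) (Fin m) (Pol (N + 3) m) :=
  (gen 0) ^ l * gen α - gen α * (gen 0) ^ l

/-- the derivation `x_β ↦ [x_0^l, x_β]` -/
noncomputable def A (l : ℕ) : Derivation ℂ (Pol (N + 3) m) (Pol (N + 3) m) :=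
  mkDerivation ℂ fun a => adGen l a.1 a.2.1 a.2.2

lemma V_X (a) : V k (X a : Pol (N + 3) m) = wt k a.1 • X a := by
  simp [V, mkDerivation_X]

lemma A_X (l : ℕ) (α p q) : A l (X (α, p, q) : Pol (N + 3) m) = adGen l α p q := by
  simp [A, mkDerivation_X]

lemma app_V_gen (α : Fin (N + 3)) :
    app (V k) (gen α : Matrix (Fin m) (Fin m) (Pol (N + 3) m)) = wt k α • gen α := by
  ext1 i j
  simp only [app, gen, Matrix.map_apply, Matrix.of_apply, V_X, Matrix.smul_apply]

lemma app_A_gen (l : ℕ) (α : Fin (N + 3)) :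
    app (A l) (gen α : Matrix (Fin m) (Fin m) (Pol (N + 3) m))
      = (gen 0) ^ l * gen α - gen α * (gen 0) ^ l := by
  ext1 i j
  simp only [app, gen, Matrix.map_apply, Matrix.of_apply, A_X, adGen]

lemma app_V_pow (l : ℕ) : app (V k) ((gen 0) ^ l : Matrix (Fin m) (Fin m) (Pol (N + 3) m))
    = (l : ℂ) • (gen 0) ^ l := by
  induction l with
  | zero => rw [pow_zero, app_one]; simp
  | succ l ih =>
    rw [pow_succ, app_mul, ih, app_V_gen]
    simp only [wt, if_true, one_smul, Matrix.smul_mul]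
    push_cast
    rw [add_smul, one_smul]

lemma app_A_pow (l r : ℕ) : app (A l) ((gen 0) ^ r : Matrix (Fin m) (Fin m) (Pol (N + 3) m)) = 0 := by
  have h0 : app (A l) (gen 0 : Matrix (Fin m) (Fin m) (Pol (N + 3) m)) = 0 := by
    rw [app_A_gen, ← pow_succ, ← pow_succ']; simp
  induction r with
  | zero => rw [pow_zero, app_one]
  | succ r ih => rw [pow_succ, app_mul, ih, h0]; simp

lemma app_apply (D : Derivation ℂ (Pol N m) (Pol N m)) (M : Matrix (Fin m) (Fin m) (Pol N m))
    (i j) : D (M i j) = app D M i j := rfl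

lemma V_A (l : ℕ) (f : Pol (N + 3) m) : V k (A l f) = A l (V k f) + (l : ℂ) • A l f := by
  have h : ⁅(V k : Derivation ℂ (Pol (N + 3) m) (Pol (N + 3) m)),
      (A l : Derivation ℂ (Pol (N + 3) m) (Pol (N + 3) m))⁆ = (l : ℂ) • A l := by
    apply derivation_ext
    rintro ⟨α, i, j⟩
    rw [Derivation.commutator_apply, A_X, V_X, Derivation.map_smul, A_X]
    have h2 : V k (adGen l α i j : Pol (N + 3) m) = app (V k) (adGen l α) i j := rfl
    rw [h2, adGen, app_sub, app_mul, app_mul, app_V_pow, app_V_gen, Derivation.smul_apply, A_X, adGen]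
    simp only [Matrix.sub_apply, Matrix.add_apply, Matrix.smul_mul, Matrix.mul_smul,
      Matrix.smul_apply, smul_eq_C_mul]
    ring
  have := congrArg (fun D : Derivation ℂ (Pol (N + 3) m) (Pol (N + 3) m) => D f) h
  simp only [Derivation.commutator_apply, Derivation.smul_apply] at this
  rw [← this]; ring

lemma V_B0 (f g : Pol (N + 3) m) :
    V k (B0 N m k f g) = B0 N m k (V k f) g + B0 N m k f (V k g) := by
  have hB := biDer_B0 (N := N) (m := m) k
  have := biDer_zero (hB.defect (V k)) (fun a b => ?_) f g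
  · rw [← sub_eq_zero]; rw [← this]; ring
  · obtain ⟨α, p, q⟩ := a
    obtain ⟨β, r, s⟩ := b
    show V k (B0 N m k (X (α, p, q)) (X (β, r, s))) - B0 N m k (V k (X (α, p, q))) (X (β, r, s))
      - B0 N m k (X (α, p, q)) (V k (X (β, r, s))) = 0
    rw [V_X, V_X, hB.smul_left, hB.smul_right]
    have key : ∀ p q r s : Fin m, V k (B0 N m k (X (1, p, q)) (X (2, r, s)))
        = (k : ℂ) • B0 N m k (X (1, p, q)) (X (2, r, s)) := by
      intro p q r s
      rw [B0_one_two]
      split_ifs
      · rw [app_apply, app_V_pow]; rfl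
      · simp
    have w1 : wt k (1 : Fin (N + 3)) = (k : ℂ) := by
      have : (1 : Fin (N + 3)) ≠ 0 := by
        intro h; have := congrArg Fin.val h; simp at this
      simp [wt, this]
    have w2 : wt k (2 : Fin (N + 3)) = 0 := by
      simp [wt, two_ne_zero', one_ne_two'.symm]
    by_cases h : α = 1 ∧ β = 2
    · obtain ⟨rfl, rfl⟩ := h
      rw [key, w1, w2]; simp
    · by_cases h' : α = 2 ∧ β = 1
      · obtain ⟨rfl, rfl⟩ := h'
        rw [hB.antisymm, map_neg, key, w1, w2]; simp
      · rw [B0_X_ne k h h']; simp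

lemma app_pderiv_gen (β α : Fin N) (i j : Fin m) :
    app (pderiv (β, i, j)) (gen α : Matrix (Fin m) (Fin m) (Pol N m))
      = if α = β then Matrix.single i j 1 else 0 := by
  ext1 p q
  simp only [app, gen, Matrix.map_apply, Matrix.of_apply]
  by_cases h : α = β
  · subst h
    have := congrFun (congrFun (grad_X (N := N) (m := m) α p q) j) i
    simp only [grad, Matrix.of_apply] at this
    rw [this, if_pos rfl]
    simp only [Matrix.single, Matrix.of_apply, and_comm, eq_comm]
  · rw [pderiv_X_of_ne, if_neg h]; · rfl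
    intro h'
    exact h (congrArg Prod.fst h')

lemma grad_pow {β : Fin (N + 3)} (hβ : (0 : Fin (N + 3)) ≠ β) (l : ℕ) (p q : Fin m) :
    grad β ((gen 0 ^ l : Matrix (Fin m) (Fin m) (Pol (N + 3) m)) p q) = 0 := by
  ext1 j i
  simp only [grad, Matrix.of_apply, Matrix.zero_apply]
  have h : ∀ l, app (pderiv (β, i, j)) (gen 0 ^ l : Matrix (Fin m) (Fin m) (Pol (N + 3) m)) = 0 := by
    intro l
    induction l with
    | zero => rw [pow_zero, app_one]
    | succ l ih => rw [pow_succ, app_mul, ih, app_pderiv_gen, if_neg hβ]; simp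
  rw [app_apply, h]; rfl

lemma B0_pow (l : ℕ) (p q : Fin m) (g : Pol (N + 3) m) :
    B0 N m k ((gen 0 ^ l : Matrix (Fin m) (Fin m) (Pol (N + 3) m)) p q) g = 0 := by
  have h1 : (0 : Fin (N + 3)) ≠ 1 := by
    intro h; have := congrArg Fin.val h; simp at this
  rw [B0, grad_pow h1, grad_pow two_ne_zero'.symm]; simp

lemma B0_A_left (l : ℕ) (α p q) (g : Pol (N + 3) m) : B0 N m k (A l (X (α, p, q))) g
    = (∑ t, (gen 0 ^ l : Matrix _ _ (Pol (N + 3) m)) p t * B0 N m k (X (α, t, q)) g)
      - ∑ t, (gen 0 ^ l : Matrix _ _ (Pol (N + 3) m)) t q * B0 N m k (X (α, p, t)) g := by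
  have hB := biDer_B0 (N := N) (m := m) k
  rw [A_X, adGen, Matrix.sub_apply, Matrix.mul_apply, Matrix.mul_apply]
  have sub_left : ∀ f g h, B0 N m k (f - g) h = B0 N m k f h - B0 N m k g h := by
    intro f g h
    rw [sub_eq_add_neg, hB.add_left, ← neg_one_smul ℂ g, hB.smul_left]
    simp [sub_eq_add_neg]
  rw [sub_left, hB.sum_left, hB.sum_left]
  congr 1
  · refine Finset.sum_congr rfl fun t _ => ?_
    rw [hB.leibniz_left, B0_pow]
    simp only [gen, Matrix.of_apply]; ring
  · refine Finset.sum_congr rfl fun t _ => ?_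
    rw [hB.leibniz_left, B0_pow]
    simp only [gen, Matrix.of_apply]; ring

lemma A_B0 (l : ℕ) (f g : Pol (N + 3) m) :
    A l (B0 N m k f g) = B0 N m k (A l f) g + B0 N m k f (A l g) := by
  have hB := biDer_B0 (N := N) (m := m) k
  have hD := hB.defect (A l)
  have key : ∀ p q r s : Fin m, A l (B0 N m k (X (1, p, q)) (X (2, r, s)))
      - B0 N m k (A l (X (1, p, q))) (X (2, r, s)) - B0 N m k (X (1, p, q)) (A l (X (2, r, s))) = 0 := by
    intro p q r s
    have h1 : A l (B0 N m k (X (1, p, q)) (X (2, r, s))) = 0 := by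
      rw [B0_one_two]
      split_ifs
      · rw [app_apply, app_A_pow]; rfl
      · simp
    have h2 : B0 N m k (A l (X (1, p, q))) (X (2, r, s))
        = (if q = r then (gen 0 ^ (l + k) : Matrix _ _ (Pol (N + 3) m)) p s else 0)
          - (gen 0 ^ l : Matrix _ _ (Pol (N + 3) m)) r q * (gen 0 ^ k : Matrix _ _ (Pol (N + 3) m)) p s := by
      rw [B0_A_left]
      congr 1
      · simp only [B0_one_two]
        split_ifs
        · rw [pow_add, Matrix.mul_apply]
        · simp
      · simp only [B0_one_two, mul_ite, mul_zero, Finset.sum_ite_eq', Finset.mem_univ, if_true]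
    have h3 : B0 N m k (X (1, p, q)) (A l (X (2, r, s)))
        = (gen 0 ^ l : Matrix _ _ (Pol (N + 3) m)) r q * (gen 0 ^ k : Matrix _ _ (Pol (N + 3) m)) p s
          - (if q = r then (gen 0 ^ (l + k) : Matrix _ _ (Pol (N + 3) m)) p s else 0) := by
      rw [hB.antisymm, B0_A_left]
      simp only [hB.antisymm (X (2, _, _)) (X (1, _, _)), B0_one_two, mul_neg,
        Finset.sum_neg_distrib, mul_ite, mul_zero, Finset.sum_ite_eq, Finset.mem_univ, if_true]
      split_ifs
      · rw [add_comm l k, pow_add, Matrix.mul_apply]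
        have : ∀ t, (gen 0 ^ l : Matrix _ _ (Pol (N + 3) m)) t s
            * (gen 0 ^ k : Matrix _ _ (Pol (N + 3) m)) p t
            = (gen 0 ^ k : Matrix _ _ (Pol (N + 3) m)) p t
              * (gen 0 ^ l : Matrix _ _ (Pol (N + 3) m)) t s := fun t => mul_comm _ _
        simp only [this]; ring
      · simp
    rw [h1, h2, h3]; ring
  have := biDer_zero hD (fun a b => ?_) f g
  · rw [← sub_eq_zero]; rw [← this]; ring
  · obtain ⟨α, p, q⟩ := a
    obtain ⟨β, r, s⟩ := b
    by_cases h : α = 1 ∧ β = 2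
    · obtain ⟨rfl, rfl⟩ := h
      exact key p q r s
    · by_cases h' : α = 2 ∧ β = 1
      · obtain ⟨rfl, rfl⟩ := h'
        rw [hD.antisymm, neg_eq_zero]
        exact key r s p q
      · show A l (B0 N m k (X (α, p, q)) (X (β, r, s))) - B0 N m k (A l (X (α, p, q))) (X (β, r, s))
          - B0 N m k (X (α, p, q)) (A l (X (β, r, s))) = 0
        rw [B0_A_left, hB.antisymm _ (A l (X (β, r, s))), B0_A_left]
        have h1 := fun p q r s => B0_X_ne (N := N) (m := m) k h h' p q r s
        have h2 : ∀ p q r s, B0 N m k (X (β, p, q)) (X (α, r, s)) = 0 := by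
          intro p q r s
          rw [hB.antisymm, h1, neg_zero]
        simp only [h1, h2, mul_zero, Finset.sum_const_zero, map_zero]
        ring


/-- the bracket: `B0 + V ∧ A` -/
noncomputable def br (l : ℕ) (f g : Pol (N + 3) m) : Pol (N + 3) m :=
  B0 N m (l + 2) f g + (V (l + 2) f * A l g - A l f * V (l + 2) g)

lemma jacobi_B0 (f g h : Pol (N + 3) m) :
    B0 N m k f (B0 N m k g h) + B0 N m k g (B0 N m k h f) + B0 N m k h (B0 N m k f g) = 0 := by
  have hB := biDer_B0 (N := N) (m := m) k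
  apply jacobi_of_X hB
  have key : ∀ a b c, B0 N m k (X a) (B0 N m k (X b) (X c)) = 0 := by
    intro a b c
    obtain ⟨α, p, q⟩ := b
    obtain ⟨β, r, s⟩ := c
    have h0 : ∀ p q r s, B0 N m k (X a) (B0 N m k (X (1, p, q)) (X (2, r, s))) = 0 := by
      intro p q r s
      rw [B0_one_two]
      split_ifs
      · rw [hB.antisymm, B0_pow, neg_zero]
      · exact hB.zero_right _
    by_cases h : α = 1 ∧ β = 2
    · obtain ⟨rfl, rfl⟩ := h
      exact h0 p q r s
    · by_cases h' : α = 2 ∧ β = 1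
      · obtain ⟨rfl, rfl⟩ := h'
        rw [hB.antisymm (X (2, p, q)), ← neg_one_smul ℂ, hB.smul_right, h0, smul_zero]
      · rw [B0_X_ne k h h']
        exact hB.zero_right _
  intro a b c
  rw [key, key, key]; ring

lemma poisson_br (l : ℕ) : IsPoisson (br l : Pol (N + 3) m → _ → _) := by
  have hB := biDer_B0 (N := N) (m := m) (l + 2)
  refine ⟨?_, ?_, ?_, ?_, ?_⟩
  · intro f g h; simp only [br, map_add, hB.add_left]; ring
  · intro c f g
    simp only [br, Derivation.map_smul, hB.smul_left, smul_mul_assoc, smul_sub, smul_add]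
  · intro f g; rw [br, br, hB.antisymm]; ring
  · intro f g h; simp only [br, hB.leibniz, Derivation.leibniz, smul_eq_mul]; ring
  · exact fun f g h => jacobi_add hB (jacobi_B0 (l + 2)) (V (l + 2)) (A l) l (V_B0 (l + 2))
      (A_B0 (l + 2) l) (V_A (l + 2) l) (B' := br l) (fun f g => rfl) f g h

lemma app_A_evalM (l : ℕ) (P : FreeAlgebra ℂ (Fin (N + 3))) :
    app (A l) (evalM m P) = (gen 0) ^ l * evalM m P - evalM m P * (gen 0) ^ l := by
  induction P using FreeAlgebra.induction with
  | grade0 r =>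
    simp only [evalM, AlgHom.commutes]
    rw [Algebra.commutes, sub_self]
    ext1 i j
    simp only [app, Matrix.map_apply, Matrix.algebraMap_matrix_apply, Matrix.zero_apply]
    split_ifs <;> simp
  | grade1 x => simp only [evalM, FreeAlgebra.lift_ι_apply, app_A_gen]
  | mul a b ha hb =>
    have : evalM m (a * b) = evalM m a * evalM m b := by simp [evalM]
    rw [this, app_mul, ha, hb]
    noncomm_ring
  | add a b ha hb =>
    have : evalM m (a + b) = evalM m a + evalM m b := by simp [evalM]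
    rw [this, app_add, ha, hb]
    noncomm_ring

lemma app_trace (D : Derivation ℂ (Pol N m) (Pol N m)) (M : Matrix (Fin m) (Fin m) (Pol N m)) :
    D M.trace = (app D M).trace := by
  simp [Matrix.trace, app]

lemma A_trace (l : ℕ) (P : FreeAlgebra ℂ (Fin (N + 3))) : A l (evalM m P).trace = 0 := by
  rw [app_trace, app_A_evalM, Matrix.trace_sub, Matrix.trace_mul_comm, sub_self]

/-- partial derivatives of a matrix polynomial, as sums of prefix times elementary matrix times
suffix -/
lemma exists_parts (α : Fin N) (P : FreeAlgebra ℂ (Fin N)) :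
    ∃ L : List (FreeAlgebra ℂ (Fin N) × FreeAlgebra ℂ (Fin N)), ∀ i j : Fin m,
      app (pderiv (α, i, j)) (evalM m P)
        = (L.map fun p => evalM m p.1 * Matrix.single i j 1 * evalM m p.2).sum := by
  induction P using FreeAlgebra.induction with
  | grade0 r =>
    refine ⟨[], fun i j => ?_⟩
    simp only [evalM, AlgHom.commutes, List.map_nil, List.sum_nil]
    ext1 p q
    simp only [app, Matrix.map_apply, Matrix.algebraMap_matrix_apply, Matrix.zero_apply]
    split_ifs <;> simp
  | grade1 x =>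
    by_cases h : x = α
    · refine ⟨[(1, 1)], fun i j => ?_⟩
      simp [evalM, app_pderiv_gen, h]
    · refine ⟨[], fun i j => ?_⟩
      simp [evalM, app_pderiv_gen, h]
  | mul a b ha hb =>
    obtain ⟨La, hLa⟩ := ha
    obtain ⟨Lb, hLb⟩ := hb
    refine ⟨(La.map fun p => (p.1, p.2 * b)) ++ (Lb.map fun p => (a * p.1, p.2)), fun i j => ?_⟩
    have h1 : ∀ a b : FreeAlgebra ℂ (Fin N), evalM m (a * b) = evalM m a * evalM m b := by
      intro a b; simp [evalM]
    rw [h1, app_mul, hLa, hLb, List.map_append, List.sum_append, List.map_map, List.map_map]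
    have e1 : (La.map fun p => evalM m p.1 * Matrix.single i j 1 * evalM m p.2).sum * evalM m b
        = (La.map ((fun p => evalM m p.1 * Matrix.single i j 1 * evalM m p.2) ∘
            fun p => (p.1, p.2 * b))).sum := by
      rw [← List.sum_map_mul_right]
      refine congrArg List.sum (List.map_congr_left fun p _ => ?_)
      simp only [Function.comp_apply, h1, mul_assoc]
    have e2 : evalM m a * (Lb.map fun p => evalM m p.1 * Matrix.single i j 1 * evalM m p.2).sum
        = (Lb.map ((fun p => evalM m p.1 * Matrix.single i j 1 * evalM m p.2) ∘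
            fun p => (a * p.1, p.2))).sum := by
      rw [← List.sum_map_mul_left]
      refine congrArg List.sum (List.map_congr_left fun p _ => ?_)
      simp only [Function.comp_apply, h1, mul_assoc]
    rw [e1, e2]
  | add a b ha hb =>
    obtain ⟨La, hLa⟩ := ha
    obtain ⟨Lb, hLb⟩ := hb
    refine ⟨La ++ Lb, fun i j => ?_⟩
    have h1 : evalM m (a + b) = evalM m a + evalM m b := by simp [evalM]
    rw [h1, app_add, hLa, hLb, List.map_append, List.sum_append]

lemma exists_grad (α : Fin N) (P : FreeAlgebra ℂ (Fin N)) :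
    ∃ Q : FreeAlgebra ℂ (Fin N), grad α (evalM m P).trace = evalM m Q := by
  obtain ⟨L, hL⟩ := exists_parts (m := m) α P
  refine ⟨(L.map fun p => p.2 * p.1).sum, ?_⟩
  ext1 j i
  simp only [grad, Matrix.of_apply]
  rw [app_trace, hL]
  clear hL
  induction L with
  | nil => simp [evalM]
  | cons p L ih =>
    have h1 : ∀ a b : FreeAlgebra ℂ (Fin N), evalM m (a + b) = evalM m a + evalM m b := by
      intro a b; simp [evalM]
    have h2 : ∀ a b : FreeAlgebra ℂ (Fin N), evalM m (a * b) = evalM m a * evalM m b := by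
      intro a b; simp [evalM]
    rw [List.map_cons, List.sum_cons, List.map_cons, List.sum_cons, Matrix.trace_add, ih, h1,
      Matrix.add_apply, h2]
    congr 1
    rw [Matrix.trace_mul_cycle]
    generalize evalM m p.2 * evalM m p.1 = W
    simp [Matrix.trace, Matrix.mul_apply, Matrix.single, Finset.sum_ite_eq, ite_and]

lemma trace_B0 (P₁ P₂ : FreeAlgebra ℂ (Fin (N + 3))) : ∃ P₃ : FreeAlgebra ℂ (Fin (N + 3)),
    B0 N m k (evalM m P₁).trace (evalM m P₂).trace = (evalM m P₃).trace := by
  obtain ⟨Q1, h1⟩ := exists_grad (m := m) 1 P₁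
  obtain ⟨Q2, h2⟩ := exists_grad (m := m) 2 P₂
  obtain ⟨R1, h3⟩ := exists_grad (m := m) 1 P₂
  obtain ⟨R2, h4⟩ := exists_grad (m := m) 2 P₁
  refine ⟨Q1 * FreeAlgebra.ι ℂ 0 ^ k * Q2 - R1 * FreeAlgebra.ι ℂ 0 ^ k * R2, ?_⟩
  rw [B0, h1, h2, h3, h4, ← Matrix.trace_sub]
  simp [evalM]


/-- entrywise application of an algebra map -/
noncomputable def mp (φ : Pol N m →ₐ[ℂ] Pol N m)
    (A : Matrix (Fin m) (Fin m) (Pol N m)) : Matrix (Fin m) (Fin m) (Pol N m) :=
  A.map φ

lemma mp_mul (φ : Pol N m →ₐ[ℂ] Pol N m)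
    (A B : Matrix (Fin m) (Fin m) (Pol N m)) : mp φ (A * B) = mp φ A * mp φ B := by
  ext1 i j; simp [mp, Matrix.mul_apply]

lemma mp_sub (φ : Pol N m →ₐ[ℂ] Pol N m)
    (A B : Matrix (Fin m) (Fin m) (Pol N m)) : mp φ (A - B) = mp φ A - mp φ B := by
  ext1 i j; simp [mp]

lemma mp_smul (φ : Pol N m →ₐ[ℂ] Pol N m) (c : ℂ)
    (A : Matrix (Fin m) (Fin m) (Pol N m)) : mp φ (c • A) = c • mp φ A := by
  ext1 i j; simp [mp]

lemma mp_one (φ : Pol N m →ₐ[ℂ] Pol N m) :
    mp φ (1 : Matrix (Fin m) (Fin m) (Pol N m)) = 1 := by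
  ext1 i j; simp only [mp, Matrix.map_apply, Matrix.one_apply]; split_ifs <;> simp

lemma mp_pow (φ : Pol N m →ₐ[ℂ] Pol N m)
    (A : Matrix (Fin m) (Fin m) (Pol N m)) (l : ℕ) : mp φ (A ^ l) = (mp φ A) ^ l := by
  induction l with
  | zero => rw [pow_zero, pow_zero, mp_one]
  | succ l ih => rw [pow_succ, pow_succ, mp_mul, ih]

lemma mp_conj_gen (g : (Matrix (Fin m) (Fin m) ℂ)ˣ) (α : Fin N) :
    mp (conj g) (gen α) = cst g.val * gen α * cst g⁻¹.val := by
  ext1 i j
  simp [mp, gen, conj, conjGen, cst]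

lemma conj_pow (g : (Matrix (Fin m) (Fin m) ℂ)ˣ) (A : Matrix (Fin m) (Fin m) (Pol N m))
    (l : ℕ) : (cst g.val * A * cst g⁻¹.val) ^ l = cst g.val * A ^ l * cst g⁻¹.val := by
  induction l with
  | zero => rw [pow_zero, pow_zero, mul_one, cst_mul_inv]
  | succ l ih =>
    rw [pow_succ, ih, pow_succ]
    have := cst_inv_mul (N := N) g
    calc cst g.val * A ^ l * cst g⁻¹.val * (cst g.val * A * cst g⁻¹.val)
        = cst g.val * A ^ l * (cst g⁻¹.val * cst g.val) * A * cst g⁻¹.val := by
          simp only [mul_assoc]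
      _ = _ := by rw [this]; simp only [mul_assoc, mul_one]

lemma comm_conj (D : Derivation ℂ (Pol N m) (Pol N m))
    (g : (Matrix (Fin m) (Fin m) ℂ)ˣ)
    (hD : ∀ α, app D (mp (conj g) (gen α)) = mp (conj g) (app D (gen α)))
    (f : Pol N m) : D (conj g f) = conj g (D f) := by
  induction f using MvPolynomial.induction_on with
  | C a =>
    have : conj g (C a : Pol N m) = C a := by simp [conj]
    rw [this]; simp
  | add p q hp hq => rw [map_add, map_add, hp, hq, map_add, map_add]
  | mul_X p a hp =>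
    have h1 : D (conj g (X a)) = conj g (D (X a)) := congrFun (congrFun (hD a.1) a.2.1) a.2.2
    rw [map_mul, Derivation.leibniz, Derivation.leibniz, map_add, hp, h1]
    simp only [smul_eq_mul, map_mul]

lemma app_conj (D : Derivation ℂ (Pol N m) (Pol N m)) (g : (Matrix (Fin m) (Fin m) ℂ)ˣ)
    (A : Matrix (Fin m) (Fin m) (Pol N m)) :
    app D (cst g.val * A * cst g⁻¹.val) = cst g.val * app D A * cst g⁻¹.val := by
  rw [app_mul, app_mul, app_cst, app_cst]; simp

lemma V_conj (g : (Matrix (Fin m) (Fin m) ℂ)ˣ) (f : Pol (N + 3) m) :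
    V k (conj g f) = conj g (V k f) := by
  apply comm_conj
  intro α
  rw [mp_conj_gen, app_conj, app_V_gen, mp_smul, mp_conj_gen, Matrix.mul_smul, Matrix.smul_mul]

lemma A_conj (l : ℕ) (g : (Matrix (Fin m) (Fin m) ℂ)ˣ) (f : Pol (N + 3) m) :
    A l (conj g f) = conj g (A l f) := by
  apply comm_conj
  intro α
  have h : ∀ A B : Matrix (Fin m) (Fin m) (Pol (N + 3) m),
      cst g.val * A * cst g⁻¹.val * (cst g.val * B * cst g⁻¹.val)
        = cst g.val * (A * B) * cst g⁻¹.val := by
    intro A B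
    calc cst g.val * A * cst g⁻¹.val * (cst g.val * B * cst g⁻¹.val)
        = cst g.val * A * (cst g⁻¹.val * cst g.val) * B * cst g⁻¹.val := by
          simp only [mul_assoc]
      _ = _ := by rw [cst_inv_mul]; simp only [mul_assoc, one_mul]
  rw [mp_conj_gen, app_conj, app_A_gen, mp_sub, mp_mul, mp_mul, mp_pow, mp_conj_gen, mp_conj_gen,
    conj_pow, h, h, mul_sub, sub_mul]

lemma conj_X (g : (Matrix (Fin m) (Fin m) ℂ)ˣ) (α : Fin N) (p q : Fin m) :
    conj g (X (α, p, q) : Pol N m)
      = (cst g.val * gen α * cst g⁻¹.val : Matrix (Fin m) (Fin m) (Pol N m)) p q := by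
  rw [← mp_conj_gen]; rfl

lemma grad_conj (g : (Matrix (Fin m) (Fin m) ℂ)ˣ) (α β : Fin N) (p q : Fin m) :
    grad β (conj g (X (α, p, q) : Pol N m))
      = if α = β then cst g⁻¹.val * Matrix.single q p 1 * cst g.val else 0 := by
  ext1 j i
  simp only [grad, Matrix.of_apply]
  rw [conj_X, app_apply, app_conj, app_pderiv_gen]
  split_ifs
  · simp only [Matrix.mul_apply, Matrix.single, Matrix.of_apply, mul_ite, ite_mul, mul_one,
      mul_zero, zero_mul, ite_and, Finset.sum_ite_eq, Finset.sum_ite_eq', Finset.mem_univ, if_true]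
    ring
  · simp

lemma B0_conj (g : (Matrix (Fin m) (Fin m) ℂ)ˣ) (f h : Pol (N + 3) m) :
    conj g (B0 N m k f h) = B0 N m k (conj g f) (conj g h) := by
  have hB := biDer_B0 (N := N) (m := m) k
  apply hom_of_X hB
  rintro ⟨α, p, q⟩ ⟨β, r, s⟩
  have key : ∀ p q r s, conj g (B0 N m k (X (1, p, q)) (X (2, r, s)))
      = B0 N m k (conj g (X (1, p, q))) (conj g (X (2, r, s))) := by
    intro p q r s
    have h1 : conj g (B0 N m k (X (1, p, q)) (X (2, r, s)))
        = if q = r then (cst g.val * gen 0 ^ k * cst g⁻¹.val :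
            Matrix (Fin m) (Fin m) (Pol (N + 3) m)) p s else 0 := by
      rw [B0_one_two]
      split_ifs
      · rw [← conj_pow, ← mp_conj_gen, ← mp_pow]; rfl
      · simp
    rw [h1, B0, grad_conj, grad_conj, grad_conj, grad_conj, if_pos rfl, if_pos rfl,
      if_neg one_ne_two'.symm, if_neg one_ne_two', ← trace_single_mul]
    have h2 : (cst g⁻¹.val * Matrix.single q p 1 * cst g.val * gen 0 ^ k *
        (cst g⁻¹.val * Matrix.single s r 1 * cst g.val) :
          Matrix (Fin m) (Fin m) (Pol (N + 3) m)).trace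
        = (Matrix.single q p 1 * (cst g.val * gen 0 ^ k * cst g⁻¹.val) *
            Matrix.single s r 1).trace := by
      calc _ = ((cst g⁻¹.val * (Matrix.single q p 1 * (cst g.val * gen 0 ^ k * cst g⁻¹.val) *
            Matrix.single s r 1)) * cst g.val).trace := by
              simp only [mul_assoc]
        _ = _ := by
          rw [Matrix.trace_mul_comm, ← mul_assoc, cst_mul_inv, one_mul]
    rw [h2]; simp
  by_cases h : α = 1 ∧ β = 2
  · obtain ⟨rfl, rfl⟩ := h
    exact key p q r s
  · by_cases h' : α = 2 ∧ β = 1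
    · obtain ⟨rfl, rfl⟩ := h'
      rw [hB.antisymm, hB.antisymm (conj g _), map_neg, key]
    · rw [B0_X_ne k h h', B0, grad_conj, grad_conj, grad_conj, grad_conj]
      have e1 : ¬ (α = 1 ∧ β = 2) := h
      have e2 : ¬ (α = 2 ∧ β = 1) := h'
      by_cases a1 : α = 1
      · have b2 : β ≠ 2 := fun hb => e1 ⟨a1, hb⟩
        rw [if_neg b2]
        by_cases b1 : β = 1
        · have a2 : α ≠ 2 := by rw [a1]; exact one_ne_two'
          rw [if_neg a2]; simp
        · rw [if_neg b1]; simp
      · rw [if_neg a1]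
        by_cases a2 : α = 2
        · have b1 : β ≠ 1 := fun hb => e2 ⟨a2, hb⟩
          rw [if_neg b1]; simp
        · rw [if_neg a2]; simp

lemma trace_br (l : ℕ) : IsTraceBracket (br l : Pol (N + 3) m → _ → _) := by
  refine ⟨poisson_br l, ?_, ?_⟩
  · intro g f h
    simp only [br, map_add, map_sub, map_mul, V_conj, A_conj, B0_conj]
  · intro P₁ P₂
    obtain ⟨P₃, h⟩ := trace_B0 (m := m) (l + 2) P₁ P₂
    refine ⟨P₃, ?_⟩
    rw [br, A_trace, A_trace, h]
    simp

lemma hom_pow (l : ℕ) (i j : Fin m) :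
    IsHomogeneous ((gen 0 ^ l : Matrix (Fin m) (Fin m) (Pol (N + 3) m)) i j) l := by
  induction l generalizing i j with
  | zero =>
    rw [pow_zero, Matrix.one_apply]
    split_ifs
    · exact isHomogeneous_one _ _
    · exact isHomogeneous_zero _ _ _
  | succ l ih =>
    rw [pow_succ, Matrix.mul_apply]
    apply IsHomogeneous.sum
    intro s _
    exact (ih i s).mul (isHomogeneous_X _ _)

lemma hom_ad (α : Fin (N + 3)) (i j : Fin m) :
    IsHomogeneous ((adGen k α : Matrix (Fin m) (Fin m) (Pol (N + 3) m)) i j) (k + 1) := by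
  unfold adGen
  rw [Matrix.sub_apply, Matrix.mul_apply, Matrix.mul_apply]
  apply IsHomogeneous.sub
  · apply IsHomogeneous.sum
    intro s _
    exact (hom_pow k i s).mul (isHomogeneous_X _ _)
  · apply IsHomogeneous.sum
    intro s _
    rw [add_comm k 1]
    exact (isHomogeneous_X _ _).mul (hom_pow k s j)

lemma hom_br (l : ℕ) : IsHomogeneousBracket (l + 2) (br l : Pol (N + 3) m → _ → _) := by
  intro a b
  have hB := biDer_B0 (N := N) (m := m) (l + 2)
  have hV : ∀ a, IsHomogeneous (V (l + 2) (X a : Pol (N + 3) m)) 1 := by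
    intro a
    rw [V_X, smul_eq_C_mul]
    simpa using (isHomogeneous_C _ (wt (l + 2) a.1)).mul (isHomogeneous_X ℂ a)
  have hA : ∀ a, IsHomogeneous (A l (X a : Pol (N + 3) m)) (l + 1) := by
    rintro ⟨α, p, q⟩
    rw [A_X]
    exact hom_ad _ _ _ _
  have hB0 : IsHomogeneous (B0 N m (l + 2) (X a) (X b)) (l + 2) := by
    obtain ⟨α, p, q⟩ := a
    obtain ⟨β, r, s⟩ := b
    have key : ∀ p q r s, IsHomogeneous (B0 N m (l + 2) (X (1, p, q)) (X (2, r, s))) (l + 2) := by
      intro p q r s
      rw [B0_one_two]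
      split_ifs
      · exact hom_pow _ _ _
      · exact isHomogeneous_zero _ _ _
    by_cases h : α = 1 ∧ β = 2
    · obtain ⟨rfl, rfl⟩ := h
      exact key p q r s
    · by_cases h' : α = 2 ∧ β = 1
      · obtain ⟨rfl, rfl⟩ := h'
        rw [hB.antisymm]
        exact (key r s p q).neg
      · rw [B0_X_ne _ h h']
        exact isHomogeneous_zero _ _ _
  apply IsHomogeneous.add hB0
  apply IsHomogeneous.sub
  · have := (hV a).mul (hA b)
    rwa [show 1 + (l + 1) = l + 2 by ring] at this
  · have := (hA a).mul (hV b)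
    rwa [show l + 1 + 1 = l + 2 by ring] at this

end Construction

section Evaluate

variable {N m : ℕ}

/-- the test matrices: `x_0 = E_{00} + E_{11}`, `x_1 = E_{12}`, all others zero -/
def tst (N m : ℕ) (α : Fin (N + 3)) : Matrix (Fin (m + 3)) (Fin (m + 3)) ℂ :=
  if α = 0 then Matrix.single 0 0 1 + Matrix.single 1 1 1
  else if α = 1 then Matrix.single 1 2 1 else 0

/-- evaluation at the test matrices -/
noncomputable def evT (N m : ℕ) : Pol (N + 3) (m + 3) →ₐ[ℂ] ℂ :=
  aeval fun a => tst N m a.1 a.2.1 a.2.2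

lemma fin_ne (a b : ℕ) (ha : a < m + 3) (hb : b < m + 3) (h : a ≠ b) :
    (⟨a, ha⟩ : Fin (m + 3)) ≠ ⟨b, hb⟩ := fun e => h (congrArg Fin.val e)

lemma one_ne_zero' : (1 : Fin (m + 3)) ≠ 0 := by
  intro h; have := congrArg Fin.val h; simp at this

lemma tst_row (α : Fin (N + 3)) (j : Fin (m + 3)) (hj : j ≠ 0) : tst N m α 0 j = 0 := by
  unfold tst
  have h1 : (1 : Fin (m + 3)) ≠ 0 := one_ne_zero'
  split_ifs
  · simp [Matrix.single, hj.symm, h1]
  · simp [Matrix.single, h1]
  · simp

lemma evT_gen (α : Fin (N + 3)) (i j : Fin (m + 3)) :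
    evT N m ((gen α : Matrix _ _ (Pol (N + 3) (m + 3))) i j) = tst N m α i j := by
  simp [gen, evT]

lemma evT_word (w : List (Fin (N + 3))) (j : Fin (m + 3)) (hj : j ≠ 0) :
    evT N m ((word w : Matrix _ _ (Pol (N + 3) (m + 3))) 0 j) = 0 := by
  induction w with
  | nil => simp [word, Ne.symm hj]
  | cons a w ih =>
    have : (word (a :: w) : Matrix _ _ (Pol (N + 3) (m + 3))) = gen a * word w := by simp [word]
    rw [this, Matrix.mul_apply, map_sum]
    apply Finset.sum_eq_zero
    intro s _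
    by_cases hs : s = 0
    · subst hs
      rw [map_mul, ih, mul_zero]
    · rw [map_mul, evT_gen, tst_row _ _ hs, zero_mul]

lemma evT_mul (A B : Matrix (Fin (m + 3)) (Fin (m + 3)) (Pol (N + 3) (m + 3))) :
    (A * B).map (evT N m) = A.map (evT N m) * B.map (evT N m) := by
  ext1 i j; simp [Matrix.mul_apply]

lemma evT_gen0 : (gen 0 : Matrix _ _ (Pol (N + 3) (m + 3))).map (evT N m)
    = Matrix.single 0 0 1 + Matrix.single 1 1 1 := by
  ext1 i j
  rw [Matrix.map_apply, evT_gen]
  simp [tst]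

lemma evT_pow (l : ℕ) : ((gen 0 ^ (l + 1) : Matrix _ _ (Pol (N + 3) (m + 3))).map (evT N m))
    = Matrix.single 0 0 1 + Matrix.single 1 1 1 := by
  induction l with
  | zero => rw [zero_add, pow_one, evT_gen0]
  | succ l ih =>
    rw [pow_succ, evT_mul, ih, evT_gen0, add_mul, mul_add, mul_add]
    have h1 : (1 : Fin (m + 3)) ≠ 0 := one_ne_zero'
    rw [Matrix.single_mul_single_same, Matrix.single_mul_single_same,
      Matrix.single_mul_single_of_ne _ _ _ _ h1, Matrix.single_mul_single_of_ne _ _ _ _ h1.symm]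
    simp

lemma not_star (l : ℕ) : ¬ FormStar (l + 3) (br (l + 1) : Pol (N + 3) (m + 3) → _ → _) := by
  rintro ⟨c, hc⟩
  have h20 : (2 : Fin (m + 3)) ≠ 0 := two_ne_zero'
  have h21 : (2 : Fin (m + 3)) ≠ 1 := one_ne_two'.symm
  have h10 : (1 : Fin (m + 3)) ≠ 0 := one_ne_zero'
  have h := congrArg (evT N m) (hc 0 1 0 0 1 2)
  rw [map_sum] at h
  have hR : ∑ w : Fin (l + 3) → Fin (N + 3), evT N m (∑ a ∈ Finset.range (l + 3 + 1),
      c ((List.ofFn w).take a) ((List.ofFn w).drop a) 0 1 •
        ((word ((List.ofFn w).take a) : Matrix _ _ (Pol (N + 3) (m + 3))) 0 2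
          * word ((List.ofFn w).drop a) 1 0)) = 0 := by
    apply Finset.sum_eq_zero
    intro w _
    rw [map_sum]
    apply Finset.sum_eq_zero
    intro a _
    rw [map_smul, map_mul, evT_word _ 2 h20, zero_mul, smul_zero]
  rw [hR] at h
  have hA0 : A (l + 1) (X (0, 0, 0) : Pol (N + 3) (m + 3)) = 0 := by
    rw [A_X, adGen, ← pow_succ, ← pow_succ']; simp
  have hV0 : V (l + 1 + 2) (X (0, 0, 0) : Pol (N + 3) (m + 3)) = X (0, 0, 0) := by
    rw [V_X]; simp [wt]
  have h1 : (gen 1 : Matrix _ _ (Pol (N + 3) (m + 3))).map (evT N m) = Matrix.single 1 2 1 := by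
    ext1 i j
    rw [Matrix.map_apply, evT_gen]
    have : (1 : Fin (N + 3)) ≠ 0 := by
      intro h; have := congrArg Fin.val h; simp at this
    simp [tst, this]
  have hE : (adGen (l + 1) 1 : Matrix _ _ (Pol (N + 3) (m + 3))).map (evT N m)
      = Matrix.single 1 2 1 := by
    unfold adGen
    have : ∀ A B : Matrix (Fin (m + 3)) (Fin (m + 3)) (Pol (N + 3) (m + 3)),
        (A - B).map (evT N m) = A.map (evT N m) - B.map (evT N m) := by
      intro A B; ext1 i j; simp
    rw [this, evT_mul, evT_mul, evT_pow, h1, add_mul, mul_add]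
    rw [Matrix.single_mul_single_same, Matrix.single_mul_single_of_ne _ _ _ _ h10.symm,
      Matrix.single_mul_single_of_ne _ _ _ _ h21, Matrix.single_mul_single_of_ne _ _ _ _ h20]
    simp
  have hE' : evT N m ((adGen (l + 1) 1 : Matrix _ _ (Pol (N + 3) (m + 3))) 1 2) = 1 := by
    have := congrFun (congrFun hE 1) 2
    simpa [Matrix.single] using this
  have hX : evT N m (X (0, 0, 0) : Pol (N + 3) (m + 3)) = 1 := by
    have : evT N m (X (0, 0, 0) : Pol (N + 3) (m + 3)) = tst N m 0 0 0 := by simp [evT]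
    rw [this]; simp [tst, Matrix.single, h10]
  rw [br, B0_zero_left, hA0, hV0, A_X, zero_mul, sub_zero, zero_add, map_mul, hX, hE'] at h
  norm_num at h

lemma nonzero_trace (l : ℕ) : br (l + 1) (evalM (m + 3) (FreeAlgebra.ι ℂ (1 : Fin (N + 3)))).trace
    (evalM (m + 3) (FreeAlgebra.ι ℂ (2 : Fin (N + 3)))).trace ≠ 0 := by
  have h0 : ∀ α β : Fin (N + 3), grad α (evalM (m + 3) (FreeAlgebra.ι ℂ β)).trace
      = if β = α then (1 : Matrix (Fin (m + 3)) (Fin (m + 3)) (Pol (N + 3) (m + 3))) else 0 := by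
    intro α β
    ext1 j i
    simp only [grad, Matrix.of_apply]
    rw [app_trace]
    simp only [evalM, FreeAlgebra.lift_ι_apply, app_pderiv_gen]
    split_ifs
    · by_cases hij : j = i
      · subst hij; simp
      · have : Matrix.trace (Matrix.single i j (1 : Pol (N + 3) (m + 3))) = 0 :=
          Matrix.trace_single_eq_of_ne _ _ _ (Ne.symm hij)
        rw [this, Matrix.one_apply_ne hij]
    · simp
  intro h
  rw [br, A_trace, A_trace, B0, h0, h0, h0, h0, if_pos rfl, if_pos rfl, if_neg one_ne_two'] at h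
  have h2 := congrArg (evT N m) h
  have h3 : evT N m (gen 0 ^ (l + 1 + 2) : Matrix (Fin (m + 3)) (Fin (m + 3)) (Pol (N + 3) (m + 3))).trace
      = 2 := by
    have : ∀ M : Matrix (Fin (m + 3)) (Fin (m + 3)) (Pol (N + 3) (m + 3)),
        evT N m M.trace = (M.map (evT N m)).trace := by
      intro M; simp [Matrix.trace]
    rw [this, show l + 1 + 2 = (l + 2) + 1 by ring, evT_pow, Matrix.trace_add]
    simp; norm_num
  simp only [one_mul, mul_one, zero_mul, mul_zero, add_zero, sub_zero, Matrix.trace_zero] at h2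
  rw [h3] at h2
  norm_num at h2

end Evaluate

/-- **Disproof of Q1**, with a witness whose trace bracket is not identically zero. -/
theorem result (k N m : ℕ) (hk : 2 < k) (hN : 3 ≤ N) (hm : 3 ≤ m) :
    ∃ B : Pol N m → Pol N m → Pol N m,
      IsTraceBracket B ∧ IsHomogeneousBracket k B ∧
      (∃ P₁ P₂ : FreeAlgebra ℂ (Fin N), B (evalM m P₁).trace (evalM m P₂).trace ≠ 0) ∧
      ¬ FormStar k B := by
  obtain ⟨k, rfl⟩ : ∃ k', k = k' + 3 := ⟨k - 3, by omega⟩
  obtain ⟨N, rfl⟩ : ∃ N', N = N' + 3 := ⟨N - 3, by omega⟩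
  obtain ⟨m, rfl⟩ : ∃ m', m = m' + 3 := ⟨m - 3, by omega⟩
  exact ⟨br (k + 1), trace_br (k + 1), hom_br (k + 1), ⟨_, _, nonzero_trace k⟩, not_star k⟩

end Pool.Agent.Results.MP_9bafdc_mp.NonzeroTrace
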