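import Mathlib

namespace Pool.Agent.Results.MP_9bafdc_mp.NotStar

open MvPolynomial

/-- polynomial functions in the entries of the `m × m` matrices `x_1,…,x_N`;
`X (α, i, j)` is the entry of `x_α` in row `i`, column `j` -/
abbrev Pol (N m : ℕ) := MvPolynomial (Fin N × Fin m × Fin m) ℂ

/-- the matrix `x_α` -/
noncomputable def gen {N m : ℕ} (α : Fin N) : Matrix (Fin m) (Fin m) (Pol N m) :=
  Matrix.of fun i j => X (α, i, j)

/-- evaluation of a matrix polynomial at `x_1,…,x_N` -/
noncomputable def evalM {N : ℕ} (m : ℕ) (P : FreeAlgebra ℂ (Fin N)) :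
    Matrix (Fin m) (Fin m) (Pol N m) := FreeAlgebra.lift ℂ (gen (m := m)) P

/-- the matrix `g x_α g⁻¹` -/
noncomputable def conjGen {N m : ℕ} (g : (Matrix (Fin m) (Fin m) ℂ)ˣ) (α : Fin N) :
    Matrix (Fin m) (Fin m) (Pol N m) := g.val.map C * gen α * g⁻¹.val.map C

/-- the substitution `x_α ↦ g x_α g⁻¹` on polynomial functions -/
noncomputable def conj {N m : ℕ} (g : (Matrix (Fin m) (Fin m) ℂ)ˣ) : Pol N m →ₐ[ℂ] Pol N m :=
  aeval fun a => conjGen g a.1 a.2.1 a.2.2

/-- a Poisson bracket on polynomial functions -/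
structure IsPoisson {N m : ℕ} (B : Pol N m → Pol N m → Pol N m) : Prop where
  add_left : ∀ f g h, B (f + g) h = B f h + B g h
  smul_left : ∀ (c : ℂ) f g, B (c • f) g = c • B f g
  antisymm : ∀ f g, B f g = - B g f
  leibniz : ∀ f g h, B f (g * h) = B f g * h + g * B f h
  jacobi : ∀ f g h, B f (B g h) + B g (B h f) + B h (B f g) = 0

/-- a trace Poisson bracket -/
structure IsTraceBracket {N m : ℕ} (B : Pol N m → Pol N m → Pol N m) : Prop where
  poisson : IsPoisson B
  invariant : ∀ (g : (Matrix (Fin m) (Fin m) ℂ)ˣ) f h, conj g (B f h) = B (conj g f) (conj g h)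
  trace : ∀ P₁ P₂ : FreeAlgebra ℂ (Fin N), ∃ P₃ : FreeAlgebra ℂ (Fin N),
    B (evalM m P₁).trace (evalM m P₂).trace = (evalM m P₃).trace

/-- homogeneous of degree `k` -/
def IsHomogeneousBracket {N m : ℕ} (k : ℕ) (B : Pol N m → Pol N m → Pol N m) : Prop :=
  ∀ a b, IsHomogeneous (B (X a) (X b)) k

/-- the matrix given by a word -/
noncomputable def word {N m : ℕ} (w : List (Fin N)) : Matrix (Fin m) (Fin m) (Pol N m) :=
  (w.map gen).prod

/-- form (*): there are constants `c` with
`{x^j_{i,α}, x^{j'}_{i',β}} = ∑ c^{u,v}_{αβ} (u)^{j'}_i (v)^j_{i'}` over all pairs of words `(u, v)`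
of total length `k`; a pair is given by a word `w` of length `k` and a cut position `a ≤ k`. -/
def FormStar {N m : ℕ} (k : ℕ) (B : Pol N m → Pol N m → Pol N m) : Prop :=
  ∃ c : List (Fin N) → List (Fin N) → Fin N → Fin N → ℂ, ∀ α β i j i' j',
    B (X (α, i, j)) (X (β, i', j')) = ∑ w : Fin k → Fin N, ∑ a ∈ Finset.range (k + 1),
      c ((List.ofFn w).take a) ((List.ofFn w).drop a) α β •
        (word ((List.ofFn w).take a) i j' * word ((List.ofFn w).drop a) i' j)

section Construction

variable {N m : ℕ} (k : ℕ)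

/-- translation of `x_1` by the identity matrix -/
noncomputable def T : Derivation ℂ (Pol (N + 2) m) (Pol (N + 2) m) :=
  mkDerivation ℂ fun a => if a.1 = 1 ∧ a.2.1 = a.2.2 then 1 else 0

/-- the matrix `[x_0^k, x_α]` -/
noncomputable def adGen (α : Fin (N + 2)) : Matrix (Fin m) (Fin m) (Pol (N + 2) m) :=
  (gen 0) ^ k * gen α - gen α * (gen 0) ^ k

/-- the derivation `x_β ↦ [x_0^k, x_β]` -/
noncomputable def V : Derivation ℂ (Pol (N + 2) m) (Pol (N + 2) m) :=
  mkDerivation ℂ fun a => adGen k a.1 a.2.1 a.2.2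

/-- the bivector `T ∧ V` -/
noncomputable def br (f g : Pol (N + 2) m) : Pol (N + 2) m := T f * V k g - V k f * T g

/-- entrywise application of a derivation -/
noncomputable def app (D : Derivation ℂ (Pol (N + 2) m) (Pol (N + 2) m))
    (A : Matrix (Fin m) (Fin m) (Pol (N + 2) m)) : Matrix (Fin m) (Fin m) (Pol (N + 2) m) :=
  A.map D

lemma app_mul (D : Derivation ℂ (Pol (N + 2) m) (Pol (N + 2) m))
    (A B : Matrix (Fin m) (Fin m) (Pol (N + 2) m)) : app D (A * B) = app D A * B + A * app D B := by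
  ext1 i j
  simp only [app, Matrix.map_apply, Matrix.mul_apply, Matrix.add_apply, map_sum]
  rw [← Finset.sum_add_distrib]
  apply Finset.sum_congr rfl
  intro l _
  rw [Derivation.leibniz, smul_eq_mul, smul_eq_mul]
  ring

lemma app_add (D : Derivation ℂ (Pol (N + 2) m) (Pol (N + 2) m))
    (A B : Matrix (Fin m) (Fin m) (Pol (N + 2) m)) : app D (A + B) = app D A + app D B := by
  ext1 i j; simp [app]

lemma app_sub (D : Derivation ℂ (Pol (N + 2) m) (Pol (N + 2) m))
    (A B : Matrix (Fin m) (Fin m) (Pol (N + 2) m)) : app D (A - B) = app D A - app D B := by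
  ext1 i j; simp [app]

lemma app_one (D : Derivation ℂ (Pol (N + 2) m) (Pol (N + 2) m)) :
    app D (1 : Matrix (Fin m) (Fin m) (Pol (N + 2) m)) = 0 := by
  ext1 i j
  simp only [app, Matrix.map_apply, Matrix.one_apply, Matrix.zero_apply]
  split_ifs <;> simp

lemma app_T_gen (α : Fin (N + 2)) :
    app T (gen α : Matrix (Fin m) (Fin m) (Pol (N + 2) m)) = if α = 1 then 1 else 0 := by
  ext1 i j
  simp only [app, gen, Matrix.map_apply, Matrix.of_apply, T, mkDerivation_X]
  by_cases h : α = 1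
  · simp [h, Matrix.one_apply]
  · simp [h]

lemma app_V_gen (α : Fin (N + 2)) :
    app (V k) (gen α : Matrix (Fin m) (Fin m) (Pol (N + 2) m))
      = (gen 0) ^ k * gen α - gen α * (gen 0) ^ k := by
  ext1 i j
  simp only [app, gen, Matrix.map_apply, Matrix.of_apply, V, mkDerivation_X, adGen]

lemma app_T_pow : app T ((gen 0) ^ k : Matrix (Fin m) (Fin m) (Pol (N + 2) m)) = 0 := by
  induction k with
  | zero => rw [pow_zero, app_one]
  | succ k ih => rw [pow_succ, app_mul, ih, app_T_gen]; simp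

lemma app_V_pow (l : ℕ) : app (V k) ((gen 0) ^ l : Matrix (Fin m) (Fin m) (Pol (N + 2) m)) = 0 := by
  have h0 : app (V k) (gen 0 : Matrix (Fin m) (Fin m) (Pol (N + 2) m)) = 0 := by
    rw [app_V_gen, ← pow_succ, ← pow_succ']; simp
  induction l with
  | zero => rw [pow_zero, app_one]
  | succ l ih => rw [pow_succ, app_mul, ih, h0]; simp

lemma T_V_comm (f : Pol (N + 2) m) : T (V k f) = V k (T f) := by
  have h : ⁅(T : Derivation ℂ (Pol (N + 2) m) (Pol (N + 2) m)),
      (V k : Derivation ℂ (Pol (N + 2) m) (Pol (N + 2) m))⁆ = 0 := by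
    apply derivation_ext
    rintro ⟨α, i, j⟩
    rw [Derivation.commutator_apply]
    have h1 : V k (X (α, i, j) : Pol (N + 2) m) = (app (V k) (gen α)) i j := rfl
    have h2 : T (X (α, i, j) : Pol (N + 2) m) = (app T (gen α)) i j := rfl
    have h3 : ∀ (D : Derivation ℂ (Pol (N + 2) m) (Pol (N + 2) m)) A i j,
      D (A i j) = (app D A) i j := fun _ _ _ _ => rfl
    rw [h1, h2, h3, h3, app_V_gen, app_T_gen, app_sub, app_mul, app_mul, app_T_pow, app_T_gen]
    by_cases h : α = 1
    · simp [h, app_one]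
    · simp only [h, if_false]
      have : app (V k) (0 : Matrix (Fin m) (Fin m) (Pol (N + 2) m)) = 0 := by
        ext1 i j; simp [app]
      simp [this]
  have := congrArg (fun D : Derivation ℂ (Pol (N + 2) m) (Pol (N + 2) m) => D f) h
  simp only [Derivation.commutator_apply] at this
  rw [← sub_eq_zero]; simpa using this

lemma poisson_br : IsPoisson (br k : Pol (N + 2) m → _ → _) := by
  refine ⟨?_, ?_, ?_, ?_, ?_⟩
  · intro f g h; simp only [br, map_add]; ring
  · intro c f g; simp only [br, Derivation.map_smul, smul_mul_assoc, smul_sub]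
  · intro f g; simp only [br]; ring
  · intro f g h; simp only [br, Derivation.leibniz, smul_eq_mul]; ring
  · intro f g h
    simp only [br, map_sub, Derivation.leibniz, smul_eq_mul, T_V_comm]
    ring

lemma app_V_evalM (P : FreeAlgebra ℂ (Fin (N + 2))) :
    app (V k) (evalM m P) = (gen 0) ^ k * evalM m P - evalM m P * (gen 0) ^ k := by
  induction P using FreeAlgebra.induction with
  | grade0 r =>
    simp only [evalM, AlgHom.commutes]
    rw [Algebra.commutes, sub_self]
    ext1 i j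
    simp only [app, Matrix.map_apply, Matrix.algebraMap_matrix_apply, Matrix.zero_apply]
    split_ifs <;> simp
  | grade1 x => simp only [evalM, FreeAlgebra.lift_ι_apply, app_V_gen]
  | mul a b ha hb =>
    have : evalM m (a * b) = evalM m a * evalM m b := by simp [evalM]
    rw [this, app_mul, ha, hb]
    noncomm_ring
  | add a b ha hb =>
    have : evalM m (a + b) = evalM m a + evalM m b := by simp [evalM]
    rw [this, app_add, ha, hb]
    noncomm_ring

lemma V_trace (P : FreeAlgebra ℂ (Fin (N + 2))) : V k (evalM m P).trace = 0 := by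
  have h1 : V k (evalM m P).trace = (app (V k) (evalM m P)).trace := by
    simp [Matrix.trace, app]
  rw [h1, app_V_evalM, Matrix.trace_sub, Matrix.trace_mul_comm, sub_self]

/-- constant matrices -/
noncomputable def cst (g : Matrix (Fin m) (Fin m) ℂ) : Matrix (Fin m) (Fin m) (Pol (N + 2) m) :=
  g.map C

lemma app_cst (D : Derivation ℂ (Pol (N + 2) m) (Pol (N + 2) m)) (g : Matrix (Fin m) (Fin m) ℂ) :
    app D (cst g) = 0 := by
  ext1 i j; simp [app, cst]

lemma cst_inv_mul (g : (Matrix (Fin m) (Fin m) ℂ)ˣ) :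
    (cst g⁻¹.val : Matrix (Fin m) (Fin m) (Pol (N + 2) m)) * cst g.val = 1 := by
  unfold cst
  rw [← Matrix.map_mul, Units.inv_mul, Matrix.map_one C (map_zero C) (map_one C)]

lemma cst_mul_inv (g : (Matrix (Fin m) (Fin m) ℂ)ˣ) :
    (cst g.val : Matrix (Fin m) (Fin m) (Pol (N + 2) m)) * cst g⁻¹.val = 1 := by
  unfold cst
  rw [← Matrix.map_mul, Units.mul_inv, Matrix.map_one C (map_zero C) (map_one C)]

lemma app_conj (D : Derivation ℂ (Pol (N + 2) m) (Pol (N + 2) m)) (g : (Matrix (Fin m) (Fin m) ℂ)ˣ)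
    (A : Matrix (Fin m) (Fin m) (Pol (N + 2) m)) :
    app D (cst g.val * A * cst g⁻¹.val) = cst g.val * app D A * cst g⁻¹.val := by
  rw [app_mul, app_mul, app_cst, app_cst]; simp

/-- entrywise application of an algebra map -/
noncomputable def mp (φ : Pol (N + 2) m →ₐ[ℂ] Pol (N + 2) m)
    (A : Matrix (Fin m) (Fin m) (Pol (N + 2) m)) : Matrix (Fin m) (Fin m) (Pol (N + 2) m) :=
  A.map φ

lemma mp_mul (φ : Pol (N + 2) m →ₐ[ℂ] Pol (N + 2) m)
    (A B : Matrix (Fin m) (Fin m) (Pol (N + 2) m)) : mp φ (A * B) = mp φ A * mp φ B := by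
  ext1 i j; simp [mp, Matrix.mul_apply]

lemma mp_sub (φ : Pol (N + 2) m →ₐ[ℂ] Pol (N + 2) m)
    (A B : Matrix (Fin m) (Fin m) (Pol (N + 2) m)) : mp φ (A - B) = mp φ A - mp φ B := by
  ext1 i j; simp [mp]

lemma mp_one (φ : Pol (N + 2) m →ₐ[ℂ] Pol (N + 2) m) :
    mp φ (1 : Matrix (Fin m) (Fin m) (Pol (N + 2) m)) = 1 := by
  ext1 i j; simp only [mp, Matrix.map_apply, Matrix.one_apply]; split_ifs <;> simp

lemma mp_pow (φ : Pol (N + 2) m →ₐ[ℂ] Pol (N + 2) m)
    (A : Matrix (Fin m) (Fin m) (Pol (N + 2) m)) (l : ℕ) : mp φ (A ^ l) = (mp φ A) ^ l := by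
  induction l with
  | zero => rw [pow_zero, pow_zero, mp_one]
  | succ l ih => rw [pow_succ, pow_succ, mp_mul, ih]

lemma mp_conj_gen (g : (Matrix (Fin m) (Fin m) ℂ)ˣ) (α : Fin (N + 2)) :
    mp (conj g) (gen α) = cst g.val * gen α * cst g⁻¹.val := by
  ext1 i j
  simp [mp, gen, conj, conjGen, cst]

lemma conj_pow (g : (Matrix (Fin m) (Fin m) ℂ)ˣ) (A : Matrix (Fin m) (Fin m) (Pol (N + 2) m))
    (l : ℕ) : (cst g.val * A * cst g⁻¹.val) ^ l = cst g.val * A ^ l * cst g⁻¹.val := by
  induction l with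
  | zero => rw [pow_zero, pow_zero, mul_one, cst_mul_inv]
  | succ l ih =>
    rw [pow_succ, ih, pow_succ]
    have := cst_inv_mul (N := N) g
    calc cst g.val * A ^ l * cst g⁻¹.val * (cst g.val * A * cst g⁻¹.val)
        = cst g.val * A ^ l * (cst g⁻¹.val * cst g.val) * A * cst g⁻¹.val := by
          simp only [mul_assoc]
      _ = _ := by rw [this]; simp only [mul_assoc, mul_one]

lemma comm_conj (D : Derivation ℂ (Pol (N + 2) m) (Pol (N + 2) m))
    (g : (Matrix (Fin m) (Fin m) ℂ)ˣ)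
    (hD : ∀ α, app D (mp (conj g) (gen α)) = mp (conj g) (app D (gen α)))
    (f : Pol (N + 2) m) : D (conj g f) = conj g (D f) := by
  induction f using MvPolynomial.induction_on with
  | C a =>
    have : conj g (C a : Pol (N + 2) m) = C a := by simp [conj]
    rw [this]; simp
  | add p q hp hq => rw [map_add, map_add, hp, hq, map_add, map_add]
  | mul_X p a hp =>
    have h1 : D (conj g (X a)) = conj g (D (X a)) := congrFun (congrFun (hD a.1) a.2.1) a.2.2
    rw [map_mul, Derivation.leibniz, Derivation.leibniz, map_add, hp, h1]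
    simp only [smul_eq_mul, map_mul]

lemma T_conj (g : (Matrix (Fin m) (Fin m) ℂ)ˣ) (f : Pol (N + 2) m) :
    T (conj g f) = conj g (T f) := by
  apply comm_conj
  intro α
  rw [mp_conj_gen, app_conj, app_T_gen]
  by_cases h : α = 1
  · simp only [h, if_true, mul_one, cst_mul_inv, mp_one]
  · simp only [h, if_false, mul_zero, zero_mul]
    ext1 i j; simp [mp]

lemma V_conj (g : (Matrix (Fin m) (Fin m) ℂ)ˣ) (f : Pol (N + 2) m) :
    V k (conj g f) = conj g (V k f) := by
  apply comm_conj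
  intro α
  have h : ∀ A B : Matrix (Fin m) (Fin m) (Pol (N + 2) m),
      cst g.val * A * cst g⁻¹.val * (cst g.val * B * cst g⁻¹.val)
        = cst g.val * (A * B) * cst g⁻¹.val := by
    intro A B
    calc cst g.val * A * cst g⁻¹.val * (cst g.val * B * cst g⁻¹.val)
        = cst g.val * A * (cst g⁻¹.val * cst g.val) * B * cst g⁻¹.val := by
          simp only [mul_assoc]
      _ = _ := by rw [cst_inv_mul]; simp only [mul_assoc, one_mul]
  rw [mp_conj_gen, app_conj, app_V_gen, mp_sub, mp_mul, mp_mul, mp_pow, mp_conj_gen, mp_conj_gen,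
    conj_pow, h, h, mul_sub, sub_mul]

lemma trace_br : IsTraceBracket (br k : Pol (N + 2) m → _ → _) := by
  refine ⟨poisson_br k, ?_, ?_⟩
  · intro g f h
    simp only [br, map_sub, map_mul, T_conj, V_conj]
  · intro P₁ P₂
    refine ⟨0, ?_⟩
    have h0 : (evalM m (0 : FreeAlgebra ℂ (Fin (N + 2)))) = 0 := by simp [evalM]
    rw [h0, br, V_trace, V_trace]
    simp

lemma hom_pow (l : ℕ) (i j : Fin m) :
    IsHomogeneous ((gen 0 ^ l : Matrix (Fin m) (Fin m) (Pol (N + 2) m)) i j) l := by
  induction l generalizing i j with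
  | zero =>
    rw [pow_zero, Matrix.one_apply]
    split_ifs
    · exact isHomogeneous_one _ _
    · exact isHomogeneous_zero _ _ _
  | succ l ih =>
    rw [pow_succ, Matrix.mul_apply]
    apply IsHomogeneous.sum
    intro s _
    exact (ih i s).mul (isHomogeneous_X _ _)

lemma hom_ad (α : Fin (N + 2)) (i j : Fin m) :
    IsHomogeneous ((adGen k α : Matrix (Fin m) (Fin m) (Pol (N + 2) m)) i j) (k + 1) := by
  unfold adGen
  rw [Matrix.sub_apply, Matrix.mul_apply, Matrix.mul_apply]
  apply IsHomogeneous.sub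
  · apply IsHomogeneous.sum
    intro s _
    exact (hom_pow k i s).mul (isHomogeneous_X _ _)
  · apply IsHomogeneous.sum
    intro s _
    rw [add_comm k 1]
    exact (isHomogeneous_X _ _).mul (hom_pow k s j)

lemma hom_br : IsHomogeneousBracket (k + 1) (br k : Pol (N + 2) m → _ → _) := by
  intro a b
  have hT : ∀ a, IsHomogeneous (T (X a : Pol (N + 2) m)) 0 := by
    intro a
    simp only [T, mkDerivation_X]
    split_ifs
    · exact isHomogeneous_one _ _
    · exact isHomogeneous_zero _ _ _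
  have hV : ∀ a, IsHomogeneous (V k (X a : Pol (N + 2) m)) (k + 1) := by
    intro a
    simp only [V, mkDerivation_X]
    exact hom_ad k _ _ _
  apply IsHomogeneous.sub
  · simpa using (hT a).mul (hV b)
  · simpa using (hV a).mul (hT b)

end Construction

section Evaluate

variable {N m : ℕ}

lemma two_ne_zero' : (2 : Fin (m + 3)) ≠ 0 := by
  intro h
  have := congrArg Fin.val h
  simp [Nat.mod_eq_of_lt (show 2 < m + 3 by omega)] at this

lemma two_ne_one' : (2 : Fin (m + 3)) ≠ 1 := by
  intro h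
  have := congrArg Fin.val h
  simp [Nat.mod_eq_of_lt (show 2 < m + 3 by omega)] at this

/-- the test matrices: `x_0 = E_{11}`, `x_1 = E_{12}`, all others zero -/
def tst (N m : ℕ) (α : Fin (N + 2)) : Matrix (Fin (m + 3)) (Fin (m + 3)) ℂ :=
  if α = 0 then Matrix.single 1 1 1 else if α = 1 then Matrix.single 1 2 1 else 0

/-- evaluation at the test matrices -/
noncomputable def evT (N m : ℕ) : Pol (N + 2) (m + 3) →ₐ[ℂ] ℂ :=
  aeval fun a => tst N m a.1 a.2.1 a.2.2

lemma tst_row (α : Fin (N + 2)) (j : Fin (m + 3)) : tst N m α 0 j = 0 := by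
  unfold tst
  split_ifs
  · simp [Matrix.single]
  · simp [Matrix.single]
  · simp

lemma evT_gen (α : Fin (N + 2)) (i j : Fin (m + 3)) :
    evT N m ((gen α : Matrix _ _ (Pol (N + 2) (m + 3))) i j) = tst N m α i j := by
  simp [gen, evT]

lemma evT_word (w : List (Fin (N + 2))) (j : Fin (m + 3)) (hj : j ≠ 0) :
    evT N m ((word w : Matrix _ _ (Pol (N + 2) (m + 3))) 0 j) = 0 := by
  cases w with
  | nil => simp [word, Ne.symm hj]
  | cons a w =>
    have : (word (a :: w) : Matrix _ _ (Pol (N + 2) (m + 3))) = gen a * word w := by simp [word]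
    rw [this, Matrix.mul_apply, map_sum]
    apply Finset.sum_eq_zero
    intro s _
    rw [map_mul, evT_gen, tst_row, zero_mul]

lemma evT_mul (A B : Matrix (Fin (m + 3)) (Fin (m + 3)) (Pol (N + 2) (m + 3))) :
    (A * B).map (evT N m) = A.map (evT N m) * B.map (evT N m) := by
  ext1 i j; simp [Matrix.mul_apply]

lemma evT_pow (l : ℕ) : ((gen 0 ^ (l + 1) : Matrix _ _ (Pol (N + 2) (m + 3))).map (evT N m))
    = Matrix.single 1 1 1 := by
  have h0 : (gen 0 : Matrix _ _ (Pol (N + 2) (m + 3))).map (evT N m) = Matrix.single 1 1 1 := by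
    ext1 i j
    rw [Matrix.map_apply, evT_gen]
    simp [tst]
  induction l with
  | zero => rw [zero_add, pow_one, h0]
  | succ l ih => rw [pow_succ, evT_mul, ih, h0]; simp

lemma not_star (k : ℕ) : ¬ FormStar (k + 2) (br (k + 1) : Pol (N + 2) (m + 3) → _ → _) := by
  rintro ⟨c, hc⟩
  have h := congrArg (evT N m) (hc 1 1 0 0 1 2)
  rw [map_sum] at h
  have hR : ∑ w : Fin (k + 2) → Fin (N + 2), evT N m (∑ a ∈ Finset.range (k + 2 + 1),
      c ((List.ofFn w).take a) ((List.ofFn w).drop a) 1 1 •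
        ((word ((List.ofFn w).take a) : Matrix _ _ (Pol (N + 2) (m + 3))) 0 2
          * word ((List.ofFn w).drop a) 1 0)) = 0 := by
    apply Finset.sum_eq_zero
    intro w _
    rw [map_sum]
    apply Finset.sum_eq_zero
    intro a _
    rw [map_smul, map_mul, evT_word _ 2 two_ne_zero', zero_mul, smul_zero]
  rw [hR] at h
  have hT1 : T (X (1, 0, 0) : Pol (N + 2) (m + 3)) = 1 := by simp [T]
  have hT2 : T (X (1, 1, 2) : Pol (N + 2) (m + 3)) = 0 := by
    simp only [T, mkDerivation_X]
    rw [if_neg]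
    rintro ⟨_, h⟩
    exact two_ne_one' h.symm
  have hV : V (k + 1) (X (1, 1, 2) : Pol (N + 2) (m + 3)) = adGen (k + 1) 1 1 2 := by
    simp [V]
  have h1 : (gen 1 : Matrix _ _ (Pol (N + 2) (m + 3))).map (evT N m) = Matrix.single 1 2 1 := by
    ext1 i j
    rw [Matrix.map_apply, evT_gen]
    simp [tst]
  have hE : (adGen (k + 1) 1 : Matrix _ _ (Pol (N + 2) (m + 3))).map (evT N m)
      = Matrix.single 1 2 1 := by
    unfold adGen
    have : ∀ A B : Matrix (Fin (m + 3)) (Fin (m + 3)) (Pol (N + 2) (m + 3)),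
        (A - B).map (evT N m) = A.map (evT N m) - B.map (evT N m) := by
      intro A B; ext1 i j; simp
    rw [this, evT_mul, evT_mul, evT_pow, h1]
    have h21 : (2 : Fin (m + 3)) ≠ 1 := two_ne_one'
    rw [Matrix.single_mul_single_same, Matrix.single_mul_single_of_ne _ _ _ _ h21]
    simp
  have hE' : evT N m ((adGen (k + 1) 1 : Matrix _ _ (Pol (N + 2) (m + 3))) 1 2) = 1 := by
    have := congrFun (congrFun hE 1) 2
    simpa [Matrix.single] using this
  rw [br, hT1, hT2, hV, one_mul, mul_zero, sub_zero, hE'] at h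
  exact one_ne_zero h

end Evaluate

/-- **Disproof of Q1.** For every `k > 2`, every `N ≥ 2` and every `m ≥ 3` there is a homogeneous
trace Poisson bracket of degree `k` which is not of form (*). -/
theorem result (k N m : ℕ) (hk : 2 < k) (hN : 2 ≤ N) (hm : 3 ≤ m) :
    ∃ B : Pol N m → Pol N m → Pol N m,
      IsTraceBracket B ∧ IsHomogeneousBracket k B ∧ ¬ FormStar k B := by
  obtain ⟨k, rfl⟩ : ∃ k', k = k' + 2 := ⟨k - 2, by omega⟩
  obtain ⟨N, rfl⟩ : ∃ N', N = N' + 2 := ⟨N - 2, by omega⟩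
  obtain ⟨m, rfl⟩ : ∃ m', m = m' + 3 := ⟨m - 3, by omega⟩
  exact ⟨br (k + 1), trace_br (k + 1), hom_br (k + 1), not_star k⟩

end Pool.Agent.Results.MP_9bafdc_mp.NotStar
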